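import Mathlib

/-! # Definitions used in the statements -/

set_option autoImplicit false

open Filter Topology Pointwise
open scoped Manifold ContDiff

namespace Pool.Agent.Y131.LM

/-- precompact: for every neighbourhood `U` of `1` there is a finite `F` with `F * U = G` -/
def Precpt (G : Type) [Group G] [TopologicalSpace G] : Prop :=
  ∀ U ∈ 𝓝 (1 : G), ∃ F : Set G, F.Finite ∧ F * U = Set.univ

/-- locally minimal: some neighbourhood `V` of `1` is not a neighbourhood of `1` for any strictly
coarser Hausdorff group topology -/
def LocMin (G : Type) [Group G] [t : TopologicalSpace G] : Prop :=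
  ∃ V ∈ 𝓝 (1 : G), ∀ t' : TopologicalSpace G, @IsTopologicalGroup G t' _ → @T2Space G t' →
    t ≤ t' → V ∈ @nhds G t' 1 → t' = t

/-- minimal: every continuous isomorphism onto a Hausdorff group has continuous inverse -/
def Minl (G : Type) [Group G] [TopologicalSpace G] : Prop :=
  ∀ (H : Type) [Group H] [TopologicalSpace H] [IsTopologicalGroup H] [T2Space H]
    (f : G ≃* H), Continuous f → Continuous f.symm

/-- pseudocompact: every continuous real function is bounded -/
def Pseudocpt (X : Type) [TopologicalSpace X] : Prop :=
  ∀ f : X → ℝ, Continuous f → ∃ M : ℝ, ∀ x, |f x| ≤ M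

/-- countably compact: every countable open cover has a finite subcover -/
def CountablyCpt (X : Type) [TopologicalSpace X] : Prop :=
  ∀ U : ℕ → Set X, (∀ n, IsOpen (U n)) → (⋃ n, U n) = Set.univ →
    ∃ s : Finset ℕ, (⋃ n ∈ s, U n) = Set.univ

/-- sequentially complete: every Cauchy sequence of the two-sided uniformity converges -/
def SeqComplete (G : Type) [Group G] [TopologicalSpace G] : Prop :=
  ∀ u : ℕ → G, (∀ U ∈ 𝓝 (1 : G), ∃ N : ℕ, ∀ m ≥ N, ∀ n ≥ N, (u m)⁻¹ * u n ∈ U ∧
    u m * (u n)⁻¹ ∈ U) → ∃ x, Tendsto u atTop (𝓝 x)

/-- property `Z`: every closed zero-dimensional subgroup is discrete -/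
def PropZ (G : Type) [Group G] [TopologicalSpace G] : Prop :=
  ∀ S : Subgroup G, IsClosed (S : Set G) →
    TopologicalSpace.IsTopologicalBasis {s : Set S | IsClopen s} → DiscreteTopology S

/-- property `Z_m`: every closed zero-dimensional metrizable subgroup is discrete -/
def PropZm (G : Type) [Group G] [TopologicalSpace G] : Prop :=
  ∀ S : Subgroup G, IsClosed (S : Set G) →
    TopologicalSpace.IsTopologicalBasis {s : Set S | IsClopen s} →
    TopologicalSpace.MetrizableSpace S → DiscreteTopology S

/-- compact Lie group: compact, with a compatible real analytic manifold structure modelled on a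
finite-dimensional real normed space for which the group operations are analytic -/
def CptLie (G : Type) [Group G] [TopologicalSpace G] : Prop :=
  CompactSpace G ∧
  ∃ (E : Type) (_ : NormedAddCommGroup E) (_ : NormedSpace ℝ E) (_ : FiniteDimensional ℝ E)
    (_ : ChartedSpace E G), LieGroup 𝓘(ℝ, E) ω G

/-- topologically isomorphic to a subgroup of a finite-dimensional unitary group -/
def Linear (G : Type) [Group G] [TopologicalSpace G] : Prop :=
  ∃ (n : ℕ) (ρ : G →* Matrix.unitaryGroup (Fin n) ℂ), IsEmbedding ρ

end Pool.Agent.Y131.LM
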