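import Pool.Agent.H645R3.MC2

/-! # Infinite closed normal subgroups of locally minimal precompact groups

Built on the starting files H645R3.MC0, MC1, MC2 (existence of strongly null sequences in compact
groups which are not Lie groups). -/

set_option autoImplicit false
set_option linter.style.haveILetI false

open Filter Topology Pointwise

namespace Pool.Agent.Y131.LM

open Pool.Agent.H241R3.Nil H645.MC

/-- `G` is locally minimal: some neighbourhood `V` of the identity is not a neighbourhood of the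
identity for any strictly coarser Hausdorff group topology. -/
def LocallyMinimal (G : Type) [Group G] [t : TopologicalSpace G] : Prop :=
  ∃ V ∈ 𝓝 (1 : G), ∀ t' : TopologicalSpace G, t ≤ t' → @IsTopologicalGroup G t' _ →
    @T2Space G t' → V ∈ @nhds G t' 1 → t' = t

section
variable {G K : Type} [Group G] [TopologicalSpace G] [IsTopologicalGroup G] [T2Space G]
    [Group K] [TopologicalSpace K] [IsTopologicalGroup K] [CompactSpace K] [T2Space K]

/-- small closed normal subgroups of the completion meet `G` -/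
theorem essential_local (hm : LocallyMinimal G) (i : G →* K) (hi : IsInducing i)
    (hd : DenseRange i) :
    ∃ W ∈ 𝓝 (1 : K), ∀ (N : Subgroup K), N.Normal → IsClosed (N : Set K) → N ≠ ⊥ →
      (N : Set K) ⊆ W → ∃ g : G, g ≠ 1 ∧ i g ∈ N := by
  obtain ⟨V, hV, hmin⟩ := hm
  have hV' := hV
  rw [hi.nhds_eq_comap, mem_comap] at hV'
  obtain ⟨V', hV', hVV⟩ := hV'
  rw [map_one] at hV'
  have hc : ContinuousAt (fun p : K × K => p.1 * p.2) (1, 1) := by fun_prop
  have h1 : (fun p : K × K => p.1 * p.2) ⁻¹' V' ∈ 𝓝 ((1 : K), (1 : K)) := by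
    apply hc
    simpa using hV'
  rw [nhds_prod_eq, mem_prod_self_iff] at h1
  obtain ⟨W0, hW0, hWV⟩ := h1
  obtain ⟨W1, hW10, hW1o, h1W1⟩ := mem_nhds_iff.1 hW0
  refine ⟨W0, hW0, fun N hNn hN hne hNW => ?_⟩
  by_contra hcon
  push Not at hcon
  obtain ⟨x, hx, hx1⟩ := exists_ne_one hne
  have hNc : IsClosed (N : Set K) := hN
  let φ : G →* K ⧸ N := (QuotientGroup.mk' N).comp i
  have hφi : Function.Injective φ := by
    rw [injective_iff_map_eq_one]
    intro g hg
    by_contra hg1
    apply hcon g hg1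
    exact (QuotientGroup.eq_one_iff _).1 hg
  have hT2 : T2Space (K ⧸ N) := by
    have : T3Space (K ⧸ N) := inferInstance
    infer_instance
  have hφc : Continuous φ := continuous_quot_mk.comp hi.continuous
  have heq : TopologicalSpace.induced φ inferInstance = ‹TopologicalSpace G› := by
    apply hmin
    · exact continuous_iff_le_induced.1 hφc
    · exact topologicalGroup_induced φ
    · exact @T2Space.of_injective_continuous G (K ⧸ N)
        (TopologicalSpace.induced φ inferInstance) _ _ φ hφi continuous_induced_dom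
    · rw [nhds_induced, mem_comap]
      refine ⟨(QuotientGroup.mk' N) '' W1, ?_, ?_⟩
      · have ho : IsOpen ((QuotientGroup.mk' N) '' W1) := QuotientGroup.isOpenMap_coe W1 hW1o
        exact ho.mem_nhds ⟨1, h1W1, by rw [map_one, map_one]⟩
      · rintro g ⟨w, hw, hwg⟩
        apply hVV
        have h2 : w⁻¹ * i g ∈ N := QuotientGroup.eq.1 hwg
        have h3 : i g = w * (w⁻¹ * i g) := by group
        rw [Set.mem_preimage, h3]
        exact hWV (show (w, w⁻¹ * i g) ∈ W0 ×ˢ W0 from ⟨hW10 hw, hNW h2⟩)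
  have hind : IsInducing φ := ⟨heq.symm⟩
  obtain ⟨U, V2, hUo, hVo, hxU, h1V, hUV⟩ := t2_separation hx1
  have h1 : i ⁻¹' V2 ∈ 𝓝 (1 : G) := by
    apply hi.continuous.continuousAt
    rw [map_one]
    exact hVo.mem_nhds h1V
  rw [hind.nhds_eq_comap, mem_comap] at h1
  obtain ⟨W, hW, hWV⟩ := h1
  rw [map_one] at hW
  obtain ⟨W', hW'W, hW'o, h1W'⟩ := mem_nhds_iff.1 hW
  have h2 : IsOpen ((QuotientGroup.mk' N) ⁻¹' W' ∩ U) :=
    (hW'o.preimage continuous_quot_mk).inter hUo
  have hx2 : x ∈ (QuotientGroup.mk' N) ⁻¹' W' ∩ U := by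
    refine ⟨?_, hxU⟩
    have : (QuotientGroup.mk' N) x = 1 := (QuotientGroup.eq_one_iff _).2 hx
    rw [Set.mem_preimage, this]
    exact h1W'
  obtain ⟨g, hg⟩ := hd.exists_mem_open h2 ⟨x, hx2⟩
  have h3 : g ∈ i ⁻¹' V2 := hWV (hW'W hg.1)
  exact Set.disjoint_left.1 hUV hg.2 h3

/-- the closure in `K` of a normal subgroup of the dense subgroup `G` is normal -/
theorem closure_normal (i : G →* K) (hd : DenseRange i) (H : Subgroup G) [H.Normal] :
    ((H.map i).topologicalClosure).Normal := by
  have hcl : IsClosed (((H.map i).topologicalClosure : Subgroup K) : Set K) :=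
    (H.map i).isClosed_topologicalClosure
  -- conjugation by elements of the image
  have h1 : ∀ g : G, ∀ n ∈ (H.map i).topologicalClosure,
      i g * n * (i g)⁻¹ ∈ (H.map i).topologicalClosure := by
    intro g
    have hc : Continuous fun n : K => i g * n * (i g)⁻¹ := by fun_prop
    have h2 : ((H.map i : Subgroup K) : Set K) ⊆ (fun n : K => i g * n * (i g)⁻¹) ⁻¹'
        (((H.map i).topologicalClosure : Subgroup K) : Set K) := by
      rintro _ ⟨h, hh, rfl⟩
      apply (H.map i).le_topologicalClosure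
      refine ⟨g * h * g⁻¹, (inferInstance : H.Normal).conj_mem h hh g, ?_⟩
      rw [map_mul, map_mul, map_inv]
    have h3 := closure_minimal h2 (hcl.preimage hc)
    intro n hn
    rw [← SetLike.mem_coe, Subgroup.topologicalClosure_coe] at hn
    exact h3 hn
  refine ⟨fun n hn k => ?_⟩
  have hc : Continuous fun k : K => k * n * k⁻¹ := by fun_prop
  have h2 : IsClosed ((fun k : K => k * n * k⁻¹) ⁻¹'
      (((H.map i).topologicalClosure : Subgroup K) : Set K)) := hcl.preimage hc
  have h3 : Set.range i ⊆ (fun k : K => k * n * k⁻¹) ⁻¹'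
      (((H.map i).topologicalClosure : Subgroup K) : Set K) := by
    rintro _ ⟨g, rfl⟩
    exact h1 g n hn
  have h4 := closure_minimal h3 h2
  rw [hd.closure_range] at h4
  exact h4 (Set.mem_univ k)

theorem comap_closure (i : G →* K) (hi : IsInducing i) (H : Subgroup G)
    (hH : IsClosed (H : Set G)) (g : G) :
    i g ∈ (H.map i).topologicalClosure ↔ g ∈ H := by
  have h1 := hi.closure_eq_preimage_closure_image (H : Set G)
  rw [hH.closure_eq] at h1
  have h2 : (i '' (H : Set G)) = ((H.map i : Subgroup K) : Set K) := rfl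
  rw [h2, ← Subgroup.topologicalClosure_coe] at h1
  constructor
  · intro h
    have : g ∈ (H : Set G) := by rw [h1]; exact h
    exact this
  · intro h
    have : g ∈ (H : Set G) := h
    rw [h1] at this
    exact this

/-- extraction of a strictly decreasing sequence -/
theorem strict_of_anti {G : Type} [Group G] [TopologicalSpace G] [T2Space G] {H : Subgroup G}
    {M : ℕ → Subgroup G} (ha : Antitone M)
    (h : (∀ n, (M n).Normal ∧ IsClosed (M n : Set G) ∧ M n ≠ ⊥ ∧ M n ≤ H) ∧
      ∀ U ∈ 𝓝 (1 : G), ∀ᶠ n in atTop, (M n : Set G) ⊆ U) :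
    ∃ M : ℕ → Subgroup G, StrictAnti M ∧
      (∀ n, (M n).Normal ∧ IsClosed (M n : Set G) ∧ M n ≠ ⊥ ∧ M n ≤ H) ∧
      ∀ U ∈ 𝓝 (1 : G), ∀ᶠ n in atTop, (M n : Set G) ⊆ U := by
  obtain ⟨h1, h2⟩ := h
  have hnext : ∀ n, ∃ m, n < m ∧ M m < M n := by
    intro n
    obtain ⟨y, hy, hy1⟩ := exists_ne_one (h1 n).2.2.1
    have hU : ({y}ᶜ : Set G) ∈ 𝓝 (1 : G) := isOpen_compl_singleton.mem_nhds (Ne.symm hy1)
    obtain ⟨m, hm, hnm⟩ := ((h2 _ hU).and (eventually_gt_atTop n)).exists
    refine ⟨m, hnm, lt_of_le_of_ne (ha hnm.le) ?_⟩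
    intro he
    rw [← he] at hy
    exact hm hy rfl
  choose nx hnx hlt using hnext
  let φ : ℕ → ℕ := fun n => Nat.rec 0 (fun _ k => nx k) n
  have hφ : ∀ n, φ (n + 1) = nx (φ n) := fun n => rfl
  have hmono : StrictMono φ := strictMono_nat_of_lt_succ fun n => by rw [hφ]; exact hnx _
  refine ⟨fun n => M (φ n), strictAnti_nat_of_succ_lt fun n => ?_, fun n => h1 _,
    fun U hU => hmono.tendsto_atTop.eventually (h2 U hU)⟩
  change M (φ (n + 1)) < M (φ n)
  rw [hφ]
  exact hlt _

/-- the dichotomy -/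
theorem dichotomy (hP : Precompact G) (hm : LocallyMinimal G) (H : Subgroup G) [H.Normal]
    (hH : IsClosed (H : Set G)) :
    FirstCountableTopology H ∨ ∃ M : ℕ → Subgroup G, StrictAnti M ∧
      (∀ n, (M n).Normal ∧ IsClosed (M n : Set G) ∧ M n ≠ ⊥ ∧ M n ≤ H) ∧
      ∀ U ∈ 𝓝 (1 : G), ∀ᶠ n in atTop, (M n : Set G) ⊆ U := by
  classical
  obtain ⟨K, _, _, _, _, _, i, hi, hd⟩ := exists_completion G hP
  set N : Subgroup K := (H.map i).topologicalClosure with hN
  have hNcl : IsClosed (N : Set K) := (H.map i).isClosed_topologicalClosure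
  have hNn : N.Normal := closure_normal i hd H
  haveI : CompactSpace N := isCompact_iff_compactSpace.1 hNcl.isCompact
  have hmemN : ∀ g, i g ∈ N ↔ g ∈ H := comap_closure i hi H hH
  by_cases hK : (⊥ : Subgroup N) ∈ LK N
  · left
    obtain ⟨ι, _, _, ρ, hρ, hker⟩ := hK
    have hinj : Function.Injective ρ := by
      intro a b hab
      have : a⁻¹ * b ∈ ρ.ker := by
        rw [MonoidHom.mem_ker, map_mul, ← hab, ← map_mul, inv_mul_cancel, map_one]
      rw [← hker, Subgroup.mem_bot, inv_mul_eq_one] at this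
      exact this
    have hemb : IsInducing ρ := (hρ.isClosedEmbedding hinj).isInducing
    let j : H → N := fun h => ⟨i h, (hmemN h).2 h.2⟩
    have hj : IsInducing j := by
      have h1 : IsInducing (Subtype.val ∘ j) := by
        have : (Subtype.val ∘ j) = i ∘ (Subtype.val : H → G) := rfl
        rw [this]
        exact hi.comp IsInducing.subtypeVal
      exact (IsInducing.subtypeVal.of_comp_iff).1 h1
    have hfc : FirstCountableTopology (Matrix ι ι ℂ) :=
      (inferInstance : FirstCountableTopology (ι → ι → ℂ))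
    exact (hemb.comp hj).firstCountableTopology
  · right
    obtain ⟨x, hx1, hx⟩ := exists_strongly_null hK
    have hxK : ∀ L ∈ LK K, ∀ᶠ n in atTop, (x n : K) ∈ L := by
      intro L hL
      have h1 : L.comap N.subtype ∈ LK N := by
        obtain ⟨ι, _, _, ρ, hρ, rfl⟩ := hL
        refine ⟨ι, inferInstance, inferInstance, ρ.comp N.subtype, ?_, ?_⟩
        · exact hρ.comp continuous_subtype_val
        · rfl
      filter_upwards [hx _ h1] with n hn
      exact hn
    let 𝓛 : ℕ → Set (Subgroup K) := fun n => {L | L ∈ LK K ∧ ∀ m, n ≤ m → (x m : K) ∈ L}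
    let R : ℕ → Subgroup K := fun n => sInf (𝓛 n) ⊓ N
    have hRanti : Antitone R := by
      intro a b hab
      refine inf_le_inf_right _ (sInf_le_sInf ?_)
      intro L hL
      exact ⟨hL.1, fun m hm => hL.2 m (hab.trans hm)⟩
    have hRn : ∀ n, (R n).Normal := by
      intro n
      have hnorm : (sInf (𝓛 n)).Normal := by
        refine ⟨fun a ha b => ?_⟩
        rw [Subgroup.mem_sInf] at ha ⊢
        intro L hL
        exact (LK.normal hL.1).conj_mem _ (ha L hL) b
      refine ⟨fun a ha b => ⟨hnorm.conj_mem a ha.1 b, hNn.conj_mem a ha.2 b⟩⟩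
    have hRc : ∀ n, IsClosed ((R n : Subgroup K) : Set K) := by
      intro n
      have h1 : IsClosed ((sInf (𝓛 n) : Subgroup K) : Set K) := by
        rw [Subgroup.coe_sInf]
        exact isClosed_biInter fun L hL => LK.closed hL.1
      exact h1.inter hNcl
    have hRb : ∀ n, R n ≠ ⊥ := by
      intro n hbot
      have hmem : (x n : K) ∈ R n := by
        refine ⟨?_, (x n).2⟩
        have : (x n : K) ∈ sInf (𝓛 n) := by
          rw [Subgroup.mem_sInf]
          exact fun L hL => hL.2 n le_rfl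
        exact this
      rw [hbot, Subgroup.mem_bot] at hmem
      exact hx1 n (Subtype.ext hmem)
    have hRlim : ∀ U ∈ 𝓝 (1 : K), ∀ᶠ n in atTop, ((R n : Subgroup K) : Set K) ⊆ U := by
      intro U hU
      obtain ⟨V, hVU, hVo, h1V⟩ := mem_nhds_iff.1 hU
      have hcomp : IsCompact (Vᶜ : Set K) := hVo.isClosed_compl.isCompact
      obtain ⟨t, ht⟩ := hcomp.elim_finite_subcover (fun L : LK K => ((L.1 : Set K))ᶜ)
        (fun L => (LK.closed L.2).isOpen_compl) (by
          intro y hy
          have hy1 : y ≠ 1 := by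
            rintro rfl
            exact hy h1V
          obtain ⟨L, hL, hyL⟩ := LK.sep hy1
          exact Set.mem_iUnion.2 ⟨⟨L, hL⟩, hyL⟩)
      have hev : ∀ᶠ n in atTop, ∀ L ∈ t, (x n : K) ∈ L.1 := by
        rw [Filter.eventually_all_finset]
        intro L _
        exact hxK L.1 L.2
      obtain ⟨n1, hn1⟩ := eventually_atTop.1 hev
      filter_upwards [eventually_ge_atTop n1] with n hn
      intro y hy
      apply hVU
      by_contra hV
      obtain ⟨L, hL, hyL⟩ := Set.mem_iUnion₂.1 (ht hV)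
      apply hyL
      have h2 : y ∈ sInf (𝓛 n) := hy.1
      rw [Subgroup.mem_sInf] at h2
      exact h2 L.1 ⟨L.2, fun m hm => hn1 m (hn.trans hm) L hL⟩
    obtain ⟨W, hW, hess⟩ := essential_local hm i hi hd
    obtain ⟨n0, hn0⟩ := eventually_atTop.1 (hRlim W hW)
    apply strict_of_anti (M := fun n => (R (n + n0)).comap i)
    · intro a b hab
      exact Subgroup.comap_mono (hRanti (by omega))
    refine ⟨fun n => ⟨?_, ?_, ?_, ?_⟩, fun U hU => ?_⟩
    · have := hRn (n + n0)
      exact Subgroup.Normal.comap this i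
    · exact (hRc (n + n0)).preimage hi.continuous
    · obtain ⟨g, hg1, hg⟩ := hess (R (n + n0)) (hRn _) (hRc _) (hRb _)
        (hn0 _ (Nat.le_add_left _ _))
      intro hbot
      change (R (n + n0)).comap i = ⊥ at hbot
      have : g ∈ (R (n + n0)).comap i := hg
      rw [hbot, Subgroup.mem_bot] at this
      exact hg1 this
    · intro g hg
      exact (hmemN g).1 hg.2
    · rw [hi.nhds_eq_comap, map_one, mem_comap] at hU
      obtain ⟨U', hU', hUU⟩ := hU
      have h1 := (tendsto_add_atTop_nat n0).eventually (hRlim U' hU')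
      filter_upwards [h1] with n hn
      intro g hg
      exact hUU (hn hg)

/-- an infinite subgroup of a precompact group is not discrete -/
theorem not_discrete (hP : Precompact G) (H : Subgroup G) (hH : (H : Set G).Infinite) :
    ({1} : Set H) ∉ 𝓝 (1 : H) := by
  classical
  intro h
  rw [nhds_subtype_eq_comap, mem_comap] at h
  obtain ⟨U, hU, hUH⟩ := h
  have hc : ContinuousAt (fun p : G × G => p.1⁻¹ * p.2) (1, 1) := by fun_prop
  have h1 : (fun p : G × G => p.1⁻¹ * p.2) ⁻¹' U ∈ 𝓝 ((1 : G), (1 : G)) := by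
    apply hc
    simpa using hU
  rw [nhds_prod_eq, mem_prod_self_iff] at h1
  obtain ⟨V, hV, hVU⟩ := h1
  obtain ⟨F, hF⟩ := hP V hV
  choose f hfF hf using hF
  have : Set.MapsTo f (H : Set G) (F : Set G) := fun x _ => hfF x
  obtain ⟨a, ha, b, hb, hab, hfab⟩ := Set.Infinite.exists_ne_map_eq_of_mapsTo hH this F.finite_toSet
  apply hab
  have ha' := Set.mem_smul_set_iff_inv_smul_mem.1 (hf a)
  have hb' := Set.mem_smul_set_iff_inv_smul_mem.1 (hf b)
  rw [← hfab] at hb'
  have h4 := hVU (show ((f a)⁻¹ • a, (f a)⁻¹ • b) ∈ V ×ˢ V from ⟨ha', hb'⟩)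
  simp only [Set.mem_preimage, smul_eq_mul] at h4
  have heq : ((f a)⁻¹ * a)⁻¹ * ((f a)⁻¹ * b) = a⁻¹ * b := by group
  rw [heq] at h4
  have h5 : (⟨a⁻¹ * b, H.mul_mem (H.inv_mem ha) hb⟩ : H) ∈ ({1} : Set H) := hUH h4
  rw [Set.mem_singleton_iff, Subtype.ext_iff] at h5
  exact inv_mul_eq_one.1 h5

/-- the sequences -/
theorem sequence (hP : Precompact G) (hm : LocallyMinimal G) (H : Subgroup G) [H.Normal]
    (hH : IsClosed (H : Set G)) (hinf : (H : Set G).Infinite) :
    ∃ u : ℕ → G, Function.Injective u ∧ (∀ n, u n ∈ H) ∧ Tendsto u atTop (𝓝 1) := by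
  classical
  have key : ∃ g : ℕ → H, (∀ n, g n ≠ 1) ∧ Tendsto g atTop (𝓝 1) := by
    rcases dichotomy hP hm H hH with hfc | ⟨M, -, hM, hlim⟩
    · have hnd := not_discrete hP H hinf
      have hne : (𝓝[≠] (1 : H)).NeBot := by
        rw [← mem_closure_iff_nhdsWithin_neBot, mem_closure_iff_nhds]
        intro t ht
        by_contra hemp
        rw [Set.not_nonempty_iff_eq_empty] at hemp
        apply hnd
        refine mem_of_superset ht ?_
        intro y hy
        by_contra hy1
        have : y ∈ t ∩ {1}ᶜ := ⟨hy, hy1⟩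
        rw [hemp] at this
        exact this
      obtain ⟨g, hg⟩ := exists_seq_tendsto (𝓝[≠] (1 : H))
      rw [tendsto_nhdsWithin_iff] at hg
      obtain ⟨n1, hn1⟩ := eventually_atTop.1 hg.2
      exact ⟨fun n => g (n + n1), fun n => hn1 _ (Nat.le_add_left _ _),
        hg.1.comp (tendsto_add_atTop_nat n1)⟩
    · have hex : ∀ n, ∃ y ∈ M n, y ≠ 1 := fun n => exists_ne_one (hM n).2.2.1
      choose y hy hy1 using hex
      refine ⟨fun n => ⟨y n, (hM n).2.2.2 (hy n)⟩, fun n h => hy1 n ?_, ?_⟩
      · exact congrArg Subtype.val h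
      · rw [tendsto_subtype_rng]
        intro U hU
        exact (hlim U hU).mono fun n hn => hn (hy n)
  obtain ⟨g, hg1, hg⟩ := key
  obtain ⟨h, hinj, hlim⟩ := injective_seq 1 g hg1 hg
  refine ⟨fun n => (h n : G), fun a b hab => hinj (Subtype.ext hab), fun n => (h n).2, ?_⟩
  exact (continuous_subtype_val.tendsto (1 : H)).comp hlim

end

end Pool.Agent.Y131.LM
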