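import Pool.Agent.H658R3.ZM8
import Pool.Agent.Y131.LM.Main

/-! # Closed normal subgroups without zero-dimensional subgroups in locally minimal groups

Relative and local version of the starting files H658R3.ZM6 and H658R3.ZM8: the proofs of
caseFM and main are adapted to closed normal subgroups of the completion which lie below
a given closed normal subgroup. -/

set_option autoImplicit false
set_option linter.style.haveILetI false
set_option linter.unusedSectionVars false

open Filter Topology Pointwise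

noncomputable section

namespace Pool.Agent.Y131.LM

open H645.MC H658.ZM Pool.Agent.H241R3.Nil

variable {K : Type} [Group K] [TopologicalSpace K] [IsTopologicalGroup K] [CompactSpace K]
  [T2Space K]

/-- a strongly null sequence of profinite closed normal subgroups gives the bad subgroup -/
theorem caseFM_rel {G : Type} [Group G] [TopologicalSpace G] [IsTopologicalGroup G] [T2Space G]
    (i : G →* K) (hi : IsInducing i)
    (T : Subgroup K)
    (hess : ∀ N : Subgroup K, CN N → N ≤ T → N ≠ ⊥ → ∃ g : G, g ≠ 1 ∧ i g ∈ N)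
    (B : ℕ → Subgroup K) (hB : ∀ n, CN (B n)) (hBT : ∀ n, B n ≤ T) (hB1 : ∀ n, B n ≠ ⊥)
    (hBF : ∀ n, FM (B n))
    (hnull : ∀ L ∈ LK K, ∀ᶠ n in atTop, B n ≤ L) : Bad G := by
  choose g hg1 hg using fun n => hess (B n) (hB n) (hBT n) (hB1 n)
  have hsup : ∀ n : ℕ, ∃ D : Subgroup K, D.Normal ∧ FM D ∧ ∀ k < n, B k ≤ D := by
    intro n
    induction n with
    | zero => exact ⟨⊥, inferInstance, FM_of_finite _ (by
        rw [Subgroup.coe_bot]; exact Set.finite_singleton _), by simp⟩
    | succ n ih =>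
      obtain ⟨D, hD, hDF, hk⟩ := ih
      have := (hB n).normal
      refine ⟨D ⊔ B n, inferInstance, hDF.sup (hBF n) (hB n).normal, fun k hkn => ?_⟩
      rcases Nat.lt_succ_iff_lt_or_eq.1 hkn with h | h
      · exact (hk k h).trans le_sup_left
      · rw [h]; exact le_sup_right
  refine lemmaA i hi g hg1 (fun L hL => ?_) (fun n => ?_)
  · filter_upwards [hnull L hL] with n hn
    exact hn (hg n)
  · obtain ⟨D, -, hDF, hk⟩ := hsup n
    refine hDF.mono ?_
    rw [Subgroup.closure_le]
    rintro _ ⟨k, hkn, rfl⟩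
    exact hk k hkn (hg k)

theorem main_rel {G : Type} [Group G] [TopologicalSpace G] [IsTopologicalGroup G] [T2Space G]
    (i : G →* K) (hi : IsInducing i)
    (T : Subgroup K) (hT : CN T)
    (hess : ∀ N : Subgroup K, CN N → N ≤ T → N ≠ ⊥ → ∃ g : G, g ≠ 1 ∧ i g ∈ N)
    (hK : ∀ L ∈ LK K, L ⊓ T ≠ ⊥) : Bad G := by
  classical
  by_contra hbad
  apply hbad
  have htop : CN (⊤ : Subgroup K) := ⟨by rw [Subgroup.coe_top]; exact isClosed_univ, inferInstance⟩
  let K0 : Subgroup K := cc ⊤
  have hK0 : CN K0 := cc_CN htop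
  have hK0c : IsPreconnected (K0 : Set K) := cc_preconnected _
  let C : Subgroup K := Subgroup.centralizer (K0 : Set K) ⊓ T
  have hC : CN C := (centralizer_CN K0 hK0.normal).inf hT
  by_cases hcase : ∀ L ∈ LK K, L ⊓ C ≠ ⊥
  · -- many profinite normal subgroups
    obtain ⟨A, hAC, hA1, hACN, hnull⟩ := exists_null_normal C hC hcase
    have hex : ∀ n, ∃ B ≤ A n, CN B ∧ B ≠ ⊥ ∧ FM B := by
      intro n
      by_cases hcc : cc (A n) = ⊥
      · exact ⟨A n, le_rfl, hACN n, hA1 n, FM_of_cc _ (hACN n).closed hcc⟩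
      · obtain ⟨B, hB, h1, h2, h3⟩ := abelian_FM (cc (A n)) (cc_CN (hACN n)) (by
          intro x hx y hy
          have h1 : y ∈ Subgroup.centralizer (K0 : Set K) :=
            (Subgroup.mem_inf.1 (hAC n (cc_le _ hy))).1
          have h2 : x ∈ K0 := subset_cc ⊤ _ (cc_preconnected (A n)) (one_mem (cc (A n)))
            (fun _ _ => trivial) hx
          exact (Subgroup.mem_centralizer_iff.1 h1 x h2)) hcc
        exact ⟨B, hB.trans (cc_le _), h1, h2, h3⟩
    choose B hBA hB hB1 hBF using hex
    exact caseFM_rel i hi T hess B hB (fun n => (hBA n).trans ((hAC n).trans inf_le_right)) hB1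
        hBF (fun L hL => by
      filter_upwards [hnull L hL] with n hn
      exact (hBA n).trans hn)
  · push Not at hcase
    obtain ⟨L00, hL0, hL0C'⟩ := hcase
    let L0 : Subgroup K := L00 ⊓ T
    have hL0T : L0 ≤ T := inf_le_right
    have hL0CN : CN L0 := (CN.of_LK hL0).inf hT
    have hL0C : L0 ⊓ Subgroup.centralizer (K0 : Set K) = ⊥ := by
      rw [eq_bot_iff, ← hL0C']
      exact le_inf (inf_le_left.trans inf_le_left)
        (le_inf inf_le_right (inf_le_left.trans inf_le_right))
    have triv1 : ∀ A : Subgroup K, CN A → A ≤ L0 → cc A = ⊥ → A = ⊥ := by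
      intro A hA hAL hcc
      rw [eq_bot_iff, ← hL0C]
      refine le_inf hAL ?_
      intro a ha
      refine Subgroup.mem_centralizer_iff.2 fun p hp => ?_
      exact centralize_of_cc_eq_bot A hA.normal hcc (K0 : Set K) hK0c (one_mem K0) p a hp ha
    have triv2 : ∀ A : Subgroup K, CN A → A ≤ L0 → IsPreconnected (A : Set K) →
        (∀ x ∈ A, ∀ y ∈ A, x * y = y * x) → A = ⊥ := by
      intro A hA hAL hAc hcomm
      rw [eq_bot_iff, ← hL0C]
      refine le_inf hAL ?_
      intro a ha
      refine Subgroup.mem_centralizer_iff.2 fun p hp => ?_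
      obtain ⟨r, hr, h⟩ := inner A hA hAc (K0 : Set K) hK0c (one_mem K0) p hp
      have h1 := h a ha
      rw [mul_assoc, hcomm r hr a ha, ← mul_assoc, ← mul_assoc] at h1
      exact mul_right_cancel h1
    obtain ⟨A, hAL, hA1, hACN, hnull⟩ := exists_null_normal L0 hL0CN (fun L hL h =>
      hK (L ⊓ L00) (LK.inf hL hL0) (by rw [inf_assoc]; exact h))
    have hex : ∀ n, ∃ Q N : Subgroup K, CN Q ∧ Q ≠ ⊥ ∧ Q ≤ A n ∧ N ∈ LK K ∧ Q ⊓ N = ⊥ := by
      intro n
      let P : Subgroup K := cc (A n)
      have hP : CN P := cc_CN (hACN n)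
      have hPA : P ≤ A n := cc_le _
      have hP1 : P ≠ ⊥ := fun h => hA1 n (triv1 (A n) (hACN n) (hAL n) h)
      have hPc : IsPreconnected (P : Set K) := cc_preconnected _
      obtain ⟨y, hy, hy1⟩ := exists_ne_one hP1
      obtain ⟨N, hN, hyN⟩ := LK.sep hy1
      have hPN : CN (P ⊓ N) := hP.inf (CN.of_LK hN)
      let R : Subgroup K := cc (P ⊓ N)
      have hR : CN R := cc_CN hPN
      have hRPN : R ≤ P ⊓ N := cc_le _
      have hRc : IsPreconnected (R : Set K) := cc_preconnected _
      have hZ := centralizer_CN R hR.normal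
      have hQ : CN (P ⊓ Subgroup.centralizer (R : Set K)) := hP.inf hZ
      refine ⟨P ⊓ Subgroup.centralizer (R : Set K), N, hQ, ?_, inf_le_left.trans hPA, hN, ?_⟩
      · obtain ⟨r, hr, h⟩ := inner R hR hRc (P : Set K) hPc (one_mem P) y hy
        have h1 : y * r ∈ P ⊓ Subgroup.centralizer (R : Set K) :=
          Subgroup.mem_inf.2 ⟨P.mul_mem hy (hRPN hr).1, Subgroup.mem_centralizer_iff.2
            (fun q hq => (h q hq).symm)⟩
        intro hbot
        rw [hbot, Subgroup.mem_bot] at h1
        apply hyN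
        have h2 := N.mul_mem (show y * r ∈ N by rw [h1]; exact one_mem _)
          (N.inv_mem (Subgroup.mem_inf.1 (hRPN hr)).2)
        rwa [mul_inv_cancel_right] at h2
      · have hQN : CN (P ⊓ Subgroup.centralizer (R : Set K) ⊓ N) := hQ.inf (CN.of_LK hN)
        have hQL : P ⊓ Subgroup.centralizer (R : Set K) ⊓ N ≤ L0 :=
          (inf_le_left.trans inf_le_left).trans (hPA.trans (hAL n))
        apply triv1 _ hQN hQL
        have hle : cc (P ⊓ Subgroup.centralizer (R : Set K) ⊓ N) ≤ R :=
          subset_cc (P ⊓ N) _ (cc_preconnected _) (one_mem _) (fun x hx => by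
            have h1 := cc_le _ hx
            rw [Subgroup.mem_inf, Subgroup.mem_inf] at h1
            exact ⟨h1.1.1, h1.2⟩)
        refine triv2 _ (cc_CN hQN) ((cc_le _).trans hQL) (cc_preconnected _) ?_
        intro x hx z hz
        have h1 := cc_le _ hz
        rw [Subgroup.mem_inf, Subgroup.mem_inf] at h1
        exact Subgroup.mem_centralizer_iff.1 h1.1.2 x (hle hx)
    choose Q N hQ hQ1 hQA hN hQN using hex
    choose g hg1 hgQ hgt using fun n => lie_torsion i hi hbad (Q n) (hQ n).closed (N n) (hN n)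
      (hQN n) (hess (Q n) (hQ n) ((hQA n).trans ((hAL n).trans hL0T)) (hQ1 n))
    obtain ⟨φ, -, hφ⟩ := exists_seq_of_forall_finset_exists (fun _ : ℕ => True)
      (fun x y => Q y ≤ N x) (by
        intro s _
        have h1 : ∀ᶠ n in atTop, ∀ x ∈ s, A n ≤ N x := by
          rw [Filter.eventually_all_finset]
          intro x _
          exact hnull (N x) (hN x)
        obtain ⟨y, hy⟩ := h1.exists
        exact ⟨y, trivial, fun x hx => (hQA y).trans (hy x hx)⟩)
    have hφi : Function.Injective φ := by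
      have h1 : ∀ m n, m < n → φ m ≠ φ n := by
        intro m n hmn heq
        have h2 := hφ m n hmn
        simp only [heq] at h2
        apply hQ1 (φ n)
        rw [← hQN (φ n)]
        exact (inf_eq_left.2 h2).symm
      intro m n hmn
      rcases lt_trichotomy m n with h | h | h
      · exact absurd hmn (h1 m n h)
      · exact h
      · exact absurd hmn.symm (h1 n m h)
    have hφt : Tendsto φ atTop atTop := Nat.cofinite_eq_atTop ▸ hφi.tendsto_cofinite
    have hcomm : ∀ m n, m < n → i (g (φ m)) * i (g (φ n)) = i (g (φ n)) * i (g (φ m)) := by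
      intro m n hmn
      have hx := hgQ (φ m)
      have hy := hφ m n hmn (hgQ (φ n))
      obtain ⟨x, hxd⟩ : ∃ x, x = i (g (φ m)) := ⟨_, rfl⟩
      obtain ⟨y, hyd⟩ : ∃ y, y = i (g (φ n)) := ⟨_, rfl⟩
      rw [← hxd] at hx ⊢
      rw [← hyd] at hy ⊢
      have h1 : x * y * x⁻¹ * y⁻¹ ∈ Q (φ m) ⊓ N (φ m) := by
        rw [Subgroup.mem_inf]
        constructor
        · have h2 := (Q (φ m)).mul_mem hx ((hQ (φ m)).normal.conj_mem _ ((Q (φ m)).inv_mem hx) y)
          have h3 : x * y * x⁻¹ * y⁻¹ = x * (y * x⁻¹ * y⁻¹) := by group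
          rwa [h3]
        · exact (N (φ m)).mul_mem ((LK.normal (hN (φ m))).conj_mem _ hy x) ((N (φ m)).inv_mem hy)
      rw [hQN, Subgroup.mem_bot, mul_inv_eq_one, mul_inv_eq_iff_eq_mul] at h1
      exact h1
    refine lemmaA i hi (fun n => g (φ n)) (fun n => hg1 _) (fun L hL => ?_) (fun n => ?_)
    · filter_upwards [hφt.eventually (hnull L hL)] with n hn
      exact hn (hQA _ (hgQ _))
    · obtain ⟨F, hF, hk, -⟩ := finite_commuting (fun n => i (g (φ n))) hcomm (fun m => by
        obtain ⟨e, he, hge⟩ := hgt (φ m)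
        exact ⟨e, he, by rw [← map_pow, hge, map_one]⟩) n
      refine (FM_of_finite F hF).mono ?_
      rw [Subgroup.closure_le]
      rintro _ ⟨k, hkn, rfl⟩
      exact hk k hkn

/-- pseudocompact dense subgroups of compact Lie groups are compact linear groups -/
theorem lie_of_dense (G : Type) [Group G] [TopologicalSpace G] [IsTopologicalGroup G]
    [T2Space G] (h : ∀ f : G → ℝ, Continuous f → ∃ M : ℝ, ∀ x, |f x| ≤ M)
    (i : G →* K) (hi : IsInducing i) (hd : DenseRange i) (hK : (⊥ : Subgroup K) ∈ LK K) :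
    CompactSpace G ∧
      ∃ (n : ℕ) (ρ : G →* Matrix.unitaryGroup (Fin n) ℂ), IsClosedEmbedding ρ := by
  obtain ⟨n, ρ, hρ, hker⟩ := fin_rep (UK_bot hK)
  have hinj : Function.Injective ρ := (MonoidHom.ker_eq_bot_iff ρ).1 hker.symm
  have hii : Function.Injective i := by
    intro a b hab
    by_contra hne
    obtain ⟨U, V, hU, hV, ha, hb, hdis⟩ := t2_separation hne
    obtain ⟨U', hU', rfl⟩ := hi.isOpen_iff.1 hU
    have hbU : b ∈ i ⁻¹' U' := by
      change i b ∈ U'
      rw [← hab]
      exact ha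
    exact Set.disjoint_left.1 hdis hbU hb
  have hsurj : Function.Surjective i := by
    intro y
    by_contra hy
    push Not at hy
    -- the distance to `y`
    let d : G → ℝ := fun x => ∑ a, ∑ b, ‖(ρ (i x) : Matrix (Fin n) (Fin n) ℂ) a b -
      (ρ y : Matrix (Fin n) (Fin n) ℂ) a b‖
    let d' : K → ℝ := fun x => ∑ a, ∑ b, ‖(ρ x : Matrix (Fin n) (Fin n) ℂ) a b -
      (ρ y : Matrix (Fin n) (Fin n) ℂ) a b‖
    have hd'c : Continuous d' := by
      refine continuous_finsetSum _ fun a _ => continuous_finsetSum _ fun b _ => ?_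
      apply Continuous.norm
      have h1 : Continuous fun x : K => (ρ x : Matrix (Fin n) (Fin n) ℂ) :=
        continuous_subtype_val.comp hρ
      exact (h1.matrix_elem a b).sub continuous_const
    have hd'0 : d' y = 0 := by simp [d']
    have hdpos : ∀ x, d x ≠ 0 := by
      intro x hx
      apply hy x
      apply hinj
      apply Subtype.ext
      ext a b
      have h1 := (Finset.sum_eq_zero_iff_of_nonneg (fun a _ =>
        Finset.sum_nonneg fun b _ => norm_nonneg _)).1 hx a (Finset.mem_univ a)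
      have h2 := (Finset.sum_eq_zero_iff_of_nonneg (fun b _ => norm_nonneg _)).1 h1 b (Finset.mem_univ b)
      exact sub_eq_zero.1 (norm_eq_zero.1 h2)
    have hdc : Continuous d := hd'c.comp hi.continuous
    obtain ⟨M, hM⟩ := h (fun x => (d x)⁻¹) (hdc.inv₀ hdpos)
    have hdn : ∀ x, 0 ≤ d x := fun x => Finset.sum_nonneg fun a _ =>
      Finset.sum_nonneg fun b _ => norm_nonneg _
    have hopen : IsOpen {z : K | d' z < (|M| + 1)⁻¹} := isOpen_lt hd'c continuous_const
    obtain ⟨x, hx⟩ := hd.exists_mem_open hopen ⟨y, by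
      change d' y < (|M| + 1)⁻¹
      rw [hd'0]
      positivity⟩
    have h1 : d x < (|M| + 1)⁻¹ := hx
    have h2 : 0 < d x := lt_of_le_of_ne (hdn x) (Ne.symm (hdpos x))
    have h3 : |M| + 1 < (d x)⁻¹ := by
      rw [lt_inv_comm₀ (by positivity) h2]
      exact h1
    have h4 := hM x
    rw [abs_of_pos (inv_pos.2 h2)] at h4
    have h5 := le_abs_self M
    linarith
  have hcomp : CompactSpace G := by
    have hemb : IsHomeomorph i := by
      rw [isHomeomorph_iff_isEmbedding_surjective]
      exact ⟨⟨hi, hii⟩, hsurj⟩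
    exact hemb.homeomorph.symm.compactSpace
  refine ⟨hcomp, n, ρ.comp i, ?_⟩
  exact (hρ.comp hi.continuous).isClosedEmbedding (hinj.comp hii)


/-- small kernels of representations -/
theorem exists_LK_sub {W : Set K} (hW : W ∈ 𝓝 (1 : K)) : ∃ L ∈ LK K, (L : Set K) ⊆ W := by
  classical
  obtain ⟨V, hVU, hVo, h1V⟩ := mem_nhds_iff.1 hW
  have hcomp : IsCompact (Vᶜ : Set K) := hVo.isClosed_compl.isCompact
  obtain ⟨t, ht⟩ := hcomp.elim_finite_subcover (fun L : LK K => ((L.1 : Set K))ᶜ)
    (fun L => (LK.closed L.2).isOpen_compl) (by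
      intro y hy
      have hy1 : y ≠ 1 := by
        rintro rfl
        exact hy h1V
      obtain ⟨L, hL, hyL⟩ := LK.sep hy1
      exact Set.mem_iUnion.2 ⟨⟨L, hL⟩, hyL⟩)
  have hfin : ∀ t : Finset (LK K), (t.inf (fun L => L.1)) ∈ LK K := by
    intro t
    induction t using Finset.induction_on with
    | empty => exact LK.top
    | insert a s ha ih => rw [Finset.inf_insert]; exact LK.inf a.2 ih
  refine ⟨_, hfin t, fun x hx => hVU ?_⟩
  by_contra hV
  obtain ⟨L, hL, hgL⟩ := Set.mem_iUnion₂.1 (ht hV)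
  exact hgL ((Finset.inf_le hL : t.inf (fun L => L.1) ≤ L.1) hx)

/-- closed normal subgroups without bad subgroups are dense in compact Lie groups -/
theorem exists_lie_closure {G : Type} [Group G] [TopologicalSpace G] [IsTopologicalGroup G]
    [T2Space G] (hP : Precompact G) (hm : LocallyMinimal G) (H : Subgroup G) [H.Normal]
    (hH : IsClosed (H : Set G)) (hbad : ¬ Bad H) :
    ∃ (N : Type) (_ : Group N) (_ : TopologicalSpace N) (_ : IsTopologicalGroup N)
      (_ : CompactSpace N) (_ : T2Space N) (j : H →* N), IsInducing j ∧ DenseRange j ∧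
      (⊥ : Subgroup N) ∈ LK N := by
  classical
  obtain ⟨K, _, _, _, _, _, i, hi, hd⟩ := exists_completion G hP
  set N : Subgroup K := (H.map i).topologicalClosure with hN
  have hNcl : IsClosed (N : Set K) := (H.map i).isClosed_topologicalClosure
  have hNn : N.Normal := closure_normal i hd H
  haveI : CompactSpace N := isCompact_iff_compactSpace.1 hNcl.isCompact
  have hmemN : ∀ g, i g ∈ N ↔ g ∈ H := comap_closure i hi H hH
  obtain ⟨W, hW, hess⟩ := essential_local hm i hi hd
  obtain ⟨L1, hL1, hL1W⟩ := exists_LK_sub hW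
  have hTCN : CN (N ⊓ L1) := (⟨hNcl, hNn⟩ : CN N).inf (CN.of_LK hL1)
  let i' : H →* K := i.comp H.subtype
  have hi' : IsInducing i' := hi.comp IsInducing.subtypeVal
  have hL : ∃ L ∈ LK K, L ⊓ (N ⊓ L1) = ⊥ := by
    by_contra hcon
    push Not at hcon
    refine hbad (main_rel i' hi' (N ⊓ L1) hTCN (fun N' hN' hle hne => ?_) hcon)
    obtain ⟨g, hg1, hg⟩ := hess N' hN'.normal hN'.closed hne
      (fun x hx => hL1W (hle hx).2)
    have hgH : g ∈ H := (hmemN g).1 (hle hg).1
    exact ⟨⟨g, hgH⟩, fun h => hg1 (congrArg Subtype.val h), hg⟩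
  obtain ⟨L, hLK, hL⟩ := hL
  let j : H →* N := MonoidHom.codRestrict i' N (fun h => (hmemN h).2 h.2)
  have hj : IsInducing j := by
    have h1 : IsInducing (Subtype.val ∘ j) := hi'
    exact (IsInducing.subtypeVal.of_comp_iff).1 h1
  refine ⟨N, inferInstance, inferInstance, inferInstance, inferInstance, inferInstance, j, hj,
    ?_, ?_⟩
  · intro y
    rw [closure_subtype]
    have h1 : (Subtype.val '' (Set.range j)) = ((H.map i : Subgroup K) : Set K) := by
      ext x
      constructor
      · rintro ⟨_, ⟨h, rfl⟩, rfl⟩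
        exact ⟨h, h.2, rfl⟩
      · rintro ⟨h, hh, rfl⟩
        exact ⟨j ⟨h, hh⟩, ⟨_, rfl⟩, rfl⟩
    rw [h1, ← Subgroup.topologicalClosure_coe]
    exact y.2
  · obtain ⟨ι, _, _, ρ, hρ, hker⟩ := LK.inf hLK hL1
    refine ⟨ι, inferInstance, inferInstance, ρ.comp N.subtype, hρ.comp continuous_subtype_val, ?_⟩
    symm
    rw [eq_bot_iff]
    intro x hx
    have h1 : (x : K) ∈ ρ.ker := hx
    rw [← hker] at h1
    have h2 : (x : K) ∈ L ⊓ (N ⊓ L1) := ⟨h1.1, x.2, h1.2⟩
    rw [hL, Subgroup.mem_bot] at h2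
    exact Subtype.ext h2

/-- dense subgroups of compact Lie groups embed in unitary groups -/
theorem embed_of_dense (G : Type) [Group G] [TopologicalSpace G] [IsTopologicalGroup G]
    [T2Space G] (i : G →* K) (hi : IsInducing i) (hK : (⊥ : Subgroup K) ∈ LK K) :
    ∃ (n : ℕ) (ρ : G →* Matrix.unitaryGroup (Fin n) ℂ), IsEmbedding ρ := by
  obtain ⟨n, ρ, hρ, hker⟩ := fin_rep (UK_bot hK)
  have hinj : Function.Injective ρ := (MonoidHom.ker_eq_bot_iff ρ).1 hker.symm
  have h1 : IsInducing (ρ.comp i) := (hρ.isClosedEmbedding hinj).isInducing.comp hi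
  exact ⟨n, ρ.comp i, h1.isEmbedding⟩

end Pool.Agent.Y131.LM
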