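import Pool.Agent.Y131.LM.Rel
import Pool.Agent.H658R3.LG2
import Pool.Agent.Y131.LM.Defs

/-! # Consequences: metrizability, property Z, sequential completeness -/

set_option autoImplicit false
set_option linter.style.haveILetI false
set_option linter.unusedSectionVars false

open Filter Topology Pointwise
open scoped Manifold ContDiff

namespace Pool.Agent.Y131.LM

open H645.MC H658.ZM Pool.Agent.H241R3.Nil

theorem cptU (n : ℕ) : CompactSpace (Matrix.unitaryGroup (Fin n) ℂ) := by
  have hcl : IsClosed ((Matrix.unitaryGroup (Fin n) ℂ : Submonoid (Matrix (Fin n) (Fin n) ℂ)) :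
      Set (Matrix (Fin n) (Fin n) ℂ)) := by
    have h1 : ((Matrix.unitaryGroup (Fin n) ℂ : Submonoid (Matrix (Fin n) (Fin n) ℂ)) :
      Set (Matrix (Fin n) (Fin n) ℂ)) = {A | star A * A = 1} := by
      ext A
      exact Matrix.mem_unitaryGroup_iff'
    rw [h1]
    exact isClosed_eq (by fun_prop) continuous_const
  have hcpt : IsCompact (Set.pi Set.univ fun _ : Fin n => Set.pi Set.univ fun _ : Fin n =>
      Metric.closedBall (0 : ℂ) 1) :=
    isCompact_univ_pi fun _ => isCompact_univ_pi fun _ => isCompact_closedBall 0 1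
  exact isCompact_iff_compactSpace.1 (hcpt.of_isClosed_subset hcl
    (fun A hA i _ j _ => by simpa using entry_norm_bound_of_unitary hA i j))

instance fc (n : ℕ) : FirstCountableTopology (Matrix.unitaryGroup (Fin n) ℂ) := by
  have h1 : FirstCountableTopology (Matrix (Fin n) (Fin n) ℂ) :=
    (inferInstance : FirstCountableTopology (Fin n → Fin n → ℂ))
  exact IsInducing.subtypeVal.firstCountableTopology

theorem closed_of_seq {G : Type} [Group G] [TopologicalSpace G] [IsTopologicalGroup G]
    (n : ℕ) (ρ : G →* Matrix.unitaryGroup (Fin n) ℂ) (hρ : IsEmbedding ρ)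
    (hs : SeqComplete G) : IsClosedEmbedding ρ := by
  refine ⟨hρ, ?_⟩
  rw [← closure_subset_iff_isClosed]
  intro y hy
  obtain ⟨x, hx, hlim⟩ := mem_closure_iff_seq_limit.1 hy
  choose g hg using hx
  have h1 : Tendsto (fun p : ℕ × ℕ => (x p.1)⁻¹ * x p.2) (atTop ×ˢ atTop) (𝓝 1) := by
    have h2 : Tendsto (fun p : ℕ × ℕ => (x p.1)⁻¹ * x p.2) (atTop ×ˢ atTop) (𝓝 (y⁻¹ * y)) :=
      ((hlim.comp tendsto_fst).inv).mul (hlim.comp tendsto_snd)
    rwa [inv_mul_cancel] at h2
  have h1' : Tendsto (fun p : ℕ × ℕ => x p.1 * (x p.2)⁻¹) (atTop ×ˢ atTop) (𝓝 1) := by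
    have h2 : Tendsto (fun p : ℕ × ℕ => x p.1 * (x p.2)⁻¹) (atTop ×ˢ atTop) (𝓝 (y * y⁻¹)) :=
      (hlim.comp tendsto_fst).mul ((hlim.comp tendsto_snd).inv)
    rwa [mul_inv_cancel] at h2
  obtain ⟨z, hz⟩ := hs g (by
    intro U hU
    rw [hρ.isInducing.nhds_eq_comap, map_one, mem_comap] at hU
    obtain ⟨U', hU', hUU⟩ := hU
    have h3 := (h1.eventually_mem hU').and (h1'.eventually_mem hU')
    rw [prod_atTop_atTop_eq, eventually_atTop] at h3
    obtain ⟨⟨a, b⟩, hab⟩ := h3
    refine ⟨max a b, fun m hm k hk => ?_⟩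
    have h4 := hab (m, k) ⟨(le_max_left a b).trans hm, (le_max_right a b).trans hk⟩
    simp only at h4
    constructor
    · apply hUU
      rw [Set.mem_preimage, map_mul, map_inv, hg, hg]
      exact h4.1
    · apply hUU
      rw [Set.mem_preimage, map_mul, map_inv, hg, hg]
      exact h4.2)
  refine ⟨z, ?_⟩
  have h5 : Tendsto x atTop (𝓝 (ρ z)) := by
    have h6 := (hρ.continuous.tendsto z).comp hz
    have h7 : (ρ ∘ g) = x := funext hg
    rwa [h7] at h6
  exact tendsto_nhds_unique h5 hlim

/-- a subgroup of a metrizable-like group: bad subgroups are the non-discrete closed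
zero-dimensional ones -/
theorem propZ_of_embed {H : Type} [Group H] [TopologicalSpace H] [IsTopologicalGroup H]
    (n : ℕ) (ρ : H →* Matrix.unitaryGroup (Fin n) ℂ) (hρ : IsEmbedding ρ)
    (hZ : ∀ S : Subgroup H, IsClosed (S : Set H) →
      TopologicalSpace.IsTopologicalBasis {s : Set S | IsClopen s} →
      TopologicalSpace.MetrizableSpace S → DiscreteTopology S) :
    TopologicalSpace.MetrizableSpace H ∧ ∀ S : Subgroup H, IsClosed (S : Set H) →
      TopologicalSpace.IsTopologicalBasis {s : Set S | IsClopen s} → DiscreteTopology S := by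
  have h1 : TopologicalSpace.MetrizableSpace (Matrix (Fin n) (Fin n) ℂ) :=
    (inferInstance : TopologicalSpace.MetrizableSpace (Fin n → Fin n → ℂ))
  have h2 : TopologicalSpace.MetrizableSpace (Matrix.unitaryGroup (Fin n) ℂ) :=
    IsEmbedding.subtypeVal.metrizableSpace
  have h3 : TopologicalSpace.MetrizableSpace H := hρ.metrizableSpace
  exact ⟨h3, fun S hS hzd => hZ S hS hzd IsEmbedding.subtypeVal.metrizableSpace⟩

/-- **Main consequence for closed normal subgroups.** -/
theorem embed_normal {G : Type} [Group G] [TopologicalSpace G] [IsTopologicalGroup G]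
    [T2Space G] (hP : Precompact G) (hm : LocallyMinimal G) (H : Subgroup G) (hHn : H.Normal)
    (hH : IsClosed (H : Set G))
    (hZ : ∀ S : Subgroup H, IsClosed (S : Set H) →
      TopologicalSpace.IsTopologicalBasis {s : Set S | IsClopen s} →
      TopologicalSpace.MetrizableSpace S → DiscreteTopology S) :
    ∃ (n : ℕ) (ρ : H →* Matrix.unitaryGroup (Fin n) ℂ), IsEmbedding ρ := by
  have hbad : ¬ H658.ZM.Bad H := by
    rintro ⟨S, h1, h2, h3, h4⟩
    exact h4 (hZ S h1 h2 h3)
  obtain ⟨N, _, _, _, _, _, j, hj, hjd, hN⟩ := exists_lie_closure hP hm H hH hbad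
  exact embed_of_dense H j hj hN

/-- the same for the group itself -/
theorem embed_self {G : Type} [Group G] [TopologicalSpace G] [IsTopologicalGroup G]
    [T2Space G] (hP : Precompact G) (hm : LocallyMinimal G)
    (hZ : ∀ S : Subgroup G, IsClosed (S : Set G) →
      TopologicalSpace.IsTopologicalBasis {s : Set S | IsClopen s} →
      TopologicalSpace.MetrizableSpace S → DiscreteTopology S) :
    ∃ (n : ℕ) (ρ : G →* Matrix.unitaryGroup (Fin n) ℂ), IsEmbedding ρ := by
  classical
  have hbad : ¬ H658.ZM.Bad G := by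
    rintro ⟨S, h1, h2, h3, h4⟩
    exact h4 (hZ S h1 h2 h3)
  obtain ⟨K, _, _, _, _, _, i, hi, hd⟩ := H645.MC.exists_completion G hP
  obtain ⟨W, hW, hess⟩ := essential_local hm i hi hd
  obtain ⟨L1, hL1, hL1W⟩ := exists_LK_sub hW
  have hK : (⊥ : Subgroup K) ∈ H645.MC.LK K := by
    by_contra hK
    refine hbad (main_rel i hi L1 (H658.ZM.CN.of_LK hL1)
      (fun N' hN' hle hne => hess N' hN'.normal hN'.closed hne (fun x hx => hL1W (hle hx)))
      (fun L hL h => hK (by rw [← h]; exact H645.MC.LK.inf hL hL1)))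
  exact embed_of_dense G i hi hK

/-- compactness from sequential completeness -/
theorem lie_of_seq {G : Type} [Group G] [TopologicalSpace G] [IsTopologicalGroup G]
    (n : ℕ) (ρ : G →* Matrix.unitaryGroup (Fin n) ℂ) (hρ : IsEmbedding ρ)
    (hs : SeqComplete G) : CompactSpace G ∧
      ∃ (E : Type) (_ : NormedAddCommGroup E) (_ : NormedSpace ℝ E) (_ : FiniteDimensional ℝ E)
        (_ : ChartedSpace E G), LieGroup 𝓘(ℝ, E) ω G := by
  have h1 := closed_of_seq n ρ hρ hs
  haveI := cptU n
  exact ⟨h1.compactSpace, H658.LG.lieGroup_of_closedEmbedding n ρ h1⟩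

/-! ### statements with the short definitions -/

theorem precompact_of {G : Type} [Group G] [TopologicalSpace G] (hpc : Precpt G) :
    Pool.Agent.H241R3.Nil.Precompact G := by
  intro U hU
  obtain ⟨F, hF, hFU⟩ := hpc U hU
  refine ⟨hF.toFinset, fun x => ?_⟩
  have hx : x ∈ F * U := by
    rw [hFU]
    exact Set.mem_univ x
  obtain ⟨g, hg, y, hy, hgy⟩ := Set.mem_mul.1 hx
  exact ⟨g, hF.mem_toFinset.2 hg, ⟨y, hy, hgy⟩⟩

theorem of_precompact {G : Type} [Group G] [TopologicalSpace G]
    (hpc : Pool.Agent.H241R3.Nil.Precompact G) : Precpt G := by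
  intro U hU
  obtain ⟨F, hF⟩ := hpc U hU
  refine ⟨F, F.finite_toSet, ?_⟩
  rw [Set.eq_univ_iff_forall]
  intro x
  obtain ⟨g, hg, y, hy, hgy⟩ := hF x
  exact Set.mem_mul.2 ⟨g, hg, y, hy, hgy⟩

theorem locMin_of {G : Type} [Group G] [t : TopologicalSpace G] (hmin : LocMin G) :
    LocallyMinimal G := by
  obtain ⟨V, hV, hmin⟩ := hmin
  exact ⟨V, hV, fun t' h1 h2 h3 h4 => hmin t' h2 h3 h1 h4⟩

theorem locMin_of_minl {G : Type} [Group G] [t : TopologicalSpace G] [IsTopologicalGroup G]
    (hmin : Minl G) : LocMin G := by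
  have hmm := H658.ZM.minimal_of G hmin
  exact ⟨Set.univ, univ_mem, fun t' h1 h2 h3 _ => hmm t' h3 h1 h2⟩

theorem normal_linear {G : Type} [Group G] [TopologicalSpace G] [IsTopologicalGroup G]
    [T2Space G] (hP : Precpt G) (hm : LocMin G) (H : Subgroup G) (hHn : H.Normal)
    (hH : IsClosed (H : Set G)) (hZ : PropZm H) : Linear H :=
  embed_normal (precompact_of hP) (locMin_of hm) H hHn hH hZ

theorem self_linear {G : Type} [Group G] [TopologicalSpace G] [IsTopologicalGroup G]
    [T2Space G] (hP : Precpt G) (hm : LocMin G) (hZ : PropZm G) : Linear G :=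
  embed_self (precompact_of hP) (locMin_of hm) hZ

theorem Linear.lie_seq {G : Type} [Group G] [TopologicalSpace G] [IsTopologicalGroup G]
    (h : Linear G) (hs : SeqComplete G) : CptLie G := by
  obtain ⟨n, ρ, hρ⟩ := h
  exact lie_of_seq n ρ hρ hs

/-- pseudocompact linear groups are compact Lie groups -/
theorem Linear.lie_ps {G : Type} [Group G] [TopologicalSpace G] [IsTopologicalGroup G]
    (h : Linear G) (hs : Pseudocpt G) : CptLie G := by
  obtain ⟨n, ρ, hρ⟩ := h
  haveI := cptU n
  have h2 : IsClosedEmbedding ρ := by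
    refine ⟨hρ, ?_⟩
    rw [← closure_subset_iff_isClosed]
    intro y hy
    by_contra hcon
    have hy0 : ∀ x, ρ x ≠ y := fun x hx => hcon ⟨x, hx⟩
    let d' : Matrix.unitaryGroup (Fin n) ℂ → ℝ := fun x => ∑ a, ∑ b,
      ‖(x : Matrix (Fin n) (Fin n) ℂ) a b - (y : Matrix (Fin n) (Fin n) ℂ) a b‖
    have hd'c : Continuous d' := by
      refine continuous_finsetSum _ fun a _ => continuous_finsetSum _ fun b _ => ?_
      apply Continuous.norm
      exact (continuous_subtype_val.matrix_elem a b).sub continuous_const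
    have hd'0 : d' y = 0 := by simp [d']
    have hdn : ∀ x, 0 ≤ d' x := fun x => Finset.sum_nonneg fun a _ =>
      Finset.sum_nonneg fun b _ => norm_nonneg _
    have hdpos : ∀ x, d' (ρ x) ≠ 0 := by
      intro x hx
      apply hy0 x
      apply Subtype.ext
      ext a b
      have h1 := (Finset.sum_eq_zero_iff_of_nonneg (fun a _ =>
        Finset.sum_nonneg fun b _ => norm_nonneg _)).1 hx a (Finset.mem_univ a)
      have h2 := (Finset.sum_eq_zero_iff_of_nonneg (fun b _ => norm_nonneg _)).1 h1 b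
        (Finset.mem_univ b)
      exact sub_eq_zero.1 (norm_eq_zero.1 h2)
    obtain ⟨M, hM⟩ := hs (fun x => (d' (ρ x))⁻¹) ((hd'c.comp hρ.continuous).inv₀ hdpos)
    have hopen : IsOpen {z | d' z < (|M| + 1)⁻¹} := isOpen_lt hd'c continuous_const
    have hymem : y ∈ {z | d' z < (|M| + 1)⁻¹} := by
      change d' y < (|M| + 1)⁻¹
      rw [hd'0]
      positivity
    obtain ⟨_, hz, x, rfl⟩ := mem_closure_iff.1 hy _ hopen hymem
    have h1 : d' (ρ x) < (|M| + 1)⁻¹ := hz
    have h2 : 0 < d' (ρ x) := lt_of_le_of_ne (hdn _) (Ne.symm (hdpos x))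
    have h3 : |M| + 1 < (d' (ρ x))⁻¹ := by
      rw [lt_inv_comm₀ (by positivity) h2]
      exact h1
    have h4 := hM x
    rw [abs_of_pos (inv_pos.2 h2)] at h4
    have h5 := le_abs_self M
    linarith
  exact ⟨h2.compactSpace, H658.LG.lieGroup_of_closedEmbedding n ρ h2⟩

theorem Linear.metrizable {G : Type} [Group G] [TopologicalSpace G] (h : Linear G) :
    TopologicalSpace.MetrizableSpace G := by
  obtain ⟨n, ρ, hρ⟩ := h
  have h1 : TopologicalSpace.MetrizableSpace (Matrix (Fin n) (Fin n) ℂ) :=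
    (inferInstance : TopologicalSpace.MetrizableSpace (Fin n → Fin n → ℂ))
  have h2 : TopologicalSpace.MetrizableSpace (Matrix.unitaryGroup (Fin n) ℂ) :=
    IsEmbedding.subtypeVal.metrizableSpace
  exact hρ.metrizableSpace

theorem Linear.propZ {G : Type} [Group G] [TopologicalSpace G] (h : Linear G)
    (hZ : PropZm G) : PropZ G := by
  have := h.metrizable
  exact fun S hS hzd => hZ S hS hzd IsEmbedding.subtypeVal.metrizableSpace

theorem pseudo_of_cc {X : Type} [TopologicalSpace X] (h : CountablyCpt X) : Pseudocpt X :=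
  H658.ZM.pseudocompact_of_countablyCompact X h

theorem precpt_of_pseudo {G : Type} [Group G] [TopologicalSpace G] [IsTopologicalGroup G]
    (h : Pseudocpt G) : Precpt G :=
  of_precompact (H658.ZM.precompact_of_pseudocompact G h)

end Pool.Agent.Y131.LM
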